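import Pool.Agent.V11201.RP.V38.All

set_option autoImplicit false

namespace Pool.Agent.Results.MP_b4345b_gt.FewVertices

open Pool.Agent.V11201.RP

/-- Real projective space of dimension six has a triangulation with 38 vertices. -/
theorem result :
    ∃ K : AbstractSimplicialComplex (Fin 38), Nonempty (real K ≃ₜ Quotient antip) :=
  V38.main

end Pool.Agent.Results.MP_b4345b_gt.FewVertices
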